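import Pool.Agent.Lib_helper92.OCN.YcJR

/-!
# MP_aeb124_co: number game, block (T5): lowering the tops, conversion
-/

set_option autoImplicit false

namespace Pool.Agent.OCN.YC

variable {P : Par} {v : Vd} {o u μ : ℕ} {β : Multiset ℕ}

/-- all the tops are on the level `c - 1` -/
theorem st_down (h : Sn P o u μ β v) (hm : 1 ≤ v.m) (hX : v.X = 0) (hz : v.m ≤ v.z)
    (hc : P.f + v.m < v.c) :
    Sn P o u μ β { v with c := v.c - 1, z := 0 } ∧
      (∀ need : ℤ, nd { v with c := v.c - 1, z := 0 } need = nd v need) ∧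
      (∀ ra : ℕ, Psi P o ra v + al P.f v ≤
        Psi P o ra { v with c := v.c - 1, z := 0 } + al P.f { v with c := v.c - 1, z := 0 }) ∧
      (∀ ra : ℕ, Vee P o ra v + al P.f v ≤
        Vee P o ra { v with c := v.c - 1, z := 0 } + al P.f { v with c := v.c - 1, z := 0 }) ∧
      ∀ ra : ℕ, Pee P o ra v + TP P o { v with c := v.c - 1, z := 0 } ≤
        Pee P o ra { v with c := v.c - 1, z := 0 } + TP P o v := by
  have hzm : v.z = v.m := le_antisymm h.hz hz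
  have hcast : ((v.c - 1 : ℕ) : ℤ) = (v.c : ℤ) - 1 := by
    rw [Nat.cast_sub (by omega)]
    simp
  have hcz : (P.f : ℤ) + v.m < v.c := by exact_mod_cast hc
  have hmz : (1 : ℤ) ≤ v.m := by exact_mod_cast hm
  have hfz : (0 : ℤ) ≤ P.f := by positivity
  refine ⟨?_, fun _ => rfl, ?_, ?_, ?_⟩
  · refine ⟨h.hf, h.hnl, h.hm, h.hμ, h.hw, Nat.zero_le _, Or.inl rfl, ?_, h.hH, ?_, h.hN, h.ho,
      h.hE, h.hW, ?_⟩
    · intro hmd
      obtain ⟨h1, h2, h3, h4, h5⟩ := h.hA hmd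
      refine ⟨?_, h2, h3, h4, Or.inr ?_⟩
      · show v.d ≤ v.c - 1
        omega
      · show v.d + 1 ≤ v.c - 1
        omega
    · have := h.hn
      show 3 * P.f + (v.c - 1) + v.m + 4 * P.K + 100 ≤ 2 * v.n
      omega
    · refine rp_down h.hR hX hz hc ?_
      intro hmd
      obtain ⟨h1, h2, h3, h4, h5⟩ := h.hA hmd
      omega
  · intro ra
    have hal : al P.f v = al P.f { v with c := v.c - 1, z := 0 } := by
      unfold al
      show (if v.w = 0 then (0 : ℤ) else 8 * min (max 0 ((v.c : ℤ) - v.m)) (P.f : ℤ) + 64)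
        = if v.w = 0 then 0 else 8 * min (max 0 (((v.c - 1 : ℕ) : ℤ) - v.m)) (P.f : ℤ) + 64
      rw [hcast, min_eq_right (le_max_of_le_right (by linarith)),
        min_eq_right (le_max_of_le_right (by linarith))]
    rw [hal]
    unfold Psi pS pH
    show pQ o v.E ra - (16 * (P.f : ℤ) ^ 2 + 2 * (max 0 ((v.c : ℤ) + v.m - P.f)) ^ 2 - 8 * v.z
        + 8 * v.X) - (16 * ((v.c : ℤ) * v.m) + 4 * (v.m : ℤ) ^ 2 + 2 * (max 0 ((v.m : ℤ) - v.c)) ^ 2
        - 4 * (max 0 ((v.c : ℤ) + v.m - P.f)) ^ 2 + 4 * (max 0 ((v.c : ℤ) - P.f - v.m)) ^ 2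
        + 64 * v.m) + _ ≤
      pQ o v.E ra - (16 * (P.f : ℤ) ^ 2 + 2 * (max 0 (((v.c - 1 : ℕ) : ℤ) + v.m - P.f)) ^ 2
        - 8 * ((0 : ℕ) : ℤ) + 8 * v.X) - (16 * (((v.c - 1 : ℕ) : ℤ) * v.m) + 4 * (v.m : ℤ) ^ 2
        + 2 * (max 0 ((v.m : ℤ) - ((v.c - 1 : ℕ) : ℤ))) ^ 2
        - 4 * (max 0 (((v.c - 1 : ℕ) : ℤ) + v.m - P.f)) ^ 2
        + 4 * (max 0 (((v.c - 1 : ℕ) : ℤ) - P.f - v.m)) ^ 2 + 64 * v.m) + _
    rw [hcast, hzm, max_eq_right (by linarith : (0 : ℤ) ≤ (v.c : ℤ) + v.m - P.f),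
      max_eq_left (by linarith : (v.m : ℤ) - v.c ≤ 0),
      max_eq_right (by linarith : (0 : ℤ) ≤ (v.c : ℤ) - P.f - v.m),
      max_eq_right (by linarith : (0 : ℤ) ≤ (v.c : ℤ) - 1 + v.m - P.f),
      max_eq_left (by linarith : (v.m : ℤ) - ((v.c : ℤ) - 1) ≤ 0),
      max_eq_right (by linarith : (0 : ℤ) ≤ (v.c : ℤ) - 1 - P.f - v.m)]
    push_cast
    nlinarith
  · intro ra
    have hal : al P.f v = al P.f { v with c := v.c - 1, z := 0 } := by
      unfold al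
      show (if v.w = 0 then (0 : ℤ) else 8 * min (max 0 ((v.c : ℤ) - v.m)) (P.f : ℤ) + 64)
        = if v.w = 0 then 0 else 8 * min (max 0 (((v.c - 1 : ℕ) : ℤ) - v.m)) (P.f : ℤ) + 64
      rw [hcast, min_eq_right (le_max_of_le_right (by linarith)),
        min_eq_right (le_max_of_le_right (by linarith))]
    rw [hal]
    unfold Vee pS
    show pQ o v.E ra - (16 * (P.f : ℤ) ^ 2 + 2 * (max 0 ((v.c : ℤ) + v.m - P.f)) ^ 2 - 8 * v.z
        + 8 * v.X) - pA P.f v.m v.n v.d v.p + _ ≤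
      pQ o v.E ra - (16 * (P.f : ℤ) ^ 2 + 2 * (max 0 (((v.c - 1 : ℕ) : ℤ) + v.m - P.f)) ^ 2
        - 8 * ((0 : ℕ) : ℤ) + 8 * v.X) - pA P.f v.m v.n v.d v.p + _
    rw [hcast, hzm, max_eq_right (by linarith : (0 : ℤ) ≤ (v.c : ℤ) + v.m - P.f),
      max_eq_right (by linarith : (0 : ℤ) ≤ (v.c : ℤ) - 1 + v.m - P.f)]
    push_cast
    nlinarith
  · intro ra
    have hTP : TP P o { v with c := v.c - 1, z := 0 } = TP P o v := by
      unfold TP
      show 80 * ((P.K : ℤ) * o) + 240 * ((P.K : ℤ) * P.Q)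
          + 8 * ((v.w : ℤ) * (v.m + min ((v.c - 1 : ℕ) : ℤ) P.f)) = _
      rw [hcast, min_eq_right (by linarith : (P.f : ℤ) ≤ (v.c : ℤ) - 1),
        min_eq_right (by linarith : (P.f : ℤ) ≤ (v.c : ℤ))]
    rw [hTP]
    unfold Pee pP
    show pQ o v.E ra - (8 * (min (v.c : ℤ) P.f * o) + 8 * (v.m * max 0 ((v.c : ℤ) - P.f))
        - 8 * v.z + 8 * v.X - 4 * (v.m : ℤ) ^ 2) + _ ≤
      pQ o v.E ra - (8 * (min ((v.c - 1 : ℕ) : ℤ) P.f * o)
        + 8 * (v.m * max 0 (((v.c - 1 : ℕ) : ℤ) - P.f))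
        - 8 * ((0 : ℕ) : ℤ) + 8 * v.X - 4 * (v.m : ℤ) ^ 2) + _
    rw [hcast, hzm, min_eq_right (by linarith : (P.f : ℤ) ≤ (v.c : ℤ) - 1),
      min_eq_right (by linarith : (P.f : ℤ) ≤ (v.c : ℤ)),
      max_eq_right (by linarith : (0 : ℤ) ≤ (v.c : ℤ) - P.f),
      max_eq_right (by linarith : (0 : ℤ) ≤ (v.c : ℤ) - 1 - P.f)]
    push_cast
    nlinarith

/-- the gain of the reserve in a conversion -/
theorem T5_psi {f m c : ℤ} (hm : 1 ≤ m) (hc0 : 0 ≤ c) (hc : c ≤ f + m) :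
    pH f (m - 1) (c + 1) + max (8 * c + 52) (16 * c - 8 * m + 60) ≤ pH f m c := by
  unfold pH
  have h1 : c + 1 + (m - 1) - f = c + m - f := by ring
  rw [h1]
  have h2 : max 0 (c - f - m) = 0 := max_eq_left (by linarith)
  have h3 : 4 * (max 0 (c + 1 - f - (m - 1))) ^ 2 ≤ 16 := by
    have h4 : max 0 (c + 1 - f - (m - 1)) ≤ 2 := max_le (by norm_num) (by linarith)
    have h5 : 0 ≤ max 0 (c + 1 - f - (m - 1)) := le_max_left _ _
    nlinarith
  rw [h2]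
  generalize max 0 (c + 1 - f - (m - 1)) = y at h3
  generalize (max 0 (c + m - f)) ^ 2 = s
  rcases le_or_gt 2 (m - c) with h | h
  · rw [max_eq_right (by linarith : (0 : ℤ) ≤ m - c),
      max_eq_right (by linarith : (0 : ℤ) ≤ m - 1 - (c + 1)),
      max_eq_left (by linarith : 16 * c - 8 * m + 60 ≤ 8 * c + 52)]
    nlinarith
  · rw [max_eq_left (by linarith : m - 1 - (c + 1) ≤ 0)]
    rcases le_or_gt 1 (m - c) with h' | h'
    · have h6 : m = c + 1 := by linarith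
      subst h6
      rw [max_eq_right (by linarith : (0 : ℤ) ≤ c + 1 - c),
        max_eq_left (by linarith : 16 * c - 8 * (c + 1) + 60 ≤ 8 * c + 52)]
      nlinarith
    · rw [max_eq_left (by linarith : m - c ≤ 0),
        max_eq_right (by linarith : 8 * c + 52 ≤ 16 * c - 8 * m + 60)]
      nlinarith

theorem T5_pp {f m c X o : ℤ} (hm : 1 ≤ m) (ho : 0 ≤ o) :
    pP f (m - 1) (c + 1) 0 X o ≤ pP f m c 0 X o + 8 * o + 16 * m + 8 := by
  unfold pP
  have h1 : min (c + 1) f * o ≤ min c f * o + o := by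
    have h2 : min (c + 1) f ≤ min c f + 1 := by
      rcases le_total c f with h | h
      · rw [min_eq_left h]
        exact min_le_left _ _
      · rw [min_eq_right h]
        exact (min_le_right _ _).trans (by linarith)
    nlinarith
  have h3 : (m - 1) * max 0 (c + 1 - f) ≤ m * max 0 (c - f) + m := by
    have h4 : max 0 (c + 1 - f) ≤ max 0 (c - f) + 1 :=
      max_le (by linarith [le_max_left 0 (c - f)]) (by linarith [le_max_right 0 (c - f)])
    have h5 : 0 ≤ max 0 (c - f) := le_max_left _ _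
    have h6 : (m - 1) * max 0 (c + 1 - f) ≤ (m - 1) * (max 0 (c - f) + 1) :=
      mul_le_mul_of_nonneg_left h4 (by linarith)
    nlinarith
  nlinarith

/-- a conversion -/
theorem st_conv (h : Sn P o u 0 β v) (hE : 1 ≤ v.E) (hw : v.w = 0) (hX : v.X = 0) (hz : v.z = 0)
    (hc : v.c ≤ P.f + v.m) (hA : v.md = true → v.d < P.f ∨ v.p = 0) (hW : P.W = u + v.E) :
    ∃ (j : ℕ) (γ : Multiset ℕ) (v' : Vd), β = j ::ₘ γ ∧ j ≤ v.c ∧
      Sn P o (u + 1) 0 (γ.map (· + 1)) v' ∧ v'.E + 1 = v.E ∧ v'.w = 0 ∧ v'.c = v.c + 1 ∧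
      v'.m + 1 = v.m ∧ v'.X = 0 ∧ v'.md = v.md ∧
      (v.md = true → v.n * v.d + v.p + v.n ≤ v'.n * v'.d + v'.p) ∧
      Psi P o 0 v + max (8 * (v.c : ℤ) + 52) (16 * (v.c : ℤ) - 8 * v.m + 60) ≤ Psi P o o v' ∧
      (v.md = true → Vee P o 0 v ≤ Vee P o o v') ∧
      Pee P o 0 v ≤ Pee P o o v' + 8 * (o : ℤ) + 16 * v.m + 8 := by
  have hmE : v.m = v.E := by
    have := h.hm
    omega
  have hm : 1 ≤ v.m := by omega
  have hcard := h.hW
  have hβ : β ≠ 0 := by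
    rintro rfl
    rw [Multiset.card_zero] at hcard
    omega
  have hmc : ((v.m - 1 : ℕ) : ℤ) = (v.m : ℤ) - 1 := by
    rw [Nat.cast_sub hm]
    simp
  have hEc : ((v.E - 1 : ℕ) : ℤ) = (v.E : ℤ) - 1 := by
    rw [Nat.cast_sub hE]
    simp
  have hmz : (1 : ℤ) ≤ v.m := by exact_mod_cast hm
  have hcz : (v.c : ℤ) ≤ P.f + v.m := by exact_mod_cast hc
  have ho : (0 : ℤ) ≤ o := by positivity
  -- the general part
  have main : ∀ (j : ℕ) (γ : Multiset ℕ) (d' p' : ℕ), β = j ::ₘ γ → j ≤ v.c →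
      Rp P.f { v with c := v.c + 1, m := v.m - 1, z := 0, d := d', p := p', E := v.E - 1 }
        (γ.map (· + 1)) →
      (v.md = true → d' ≤ v.c + 1 ∧ d' ≤ P.f ∧ P.f ≤ d' + (v.m - 1) ∧ p' ≤ v.n ∧
        (p' = 0 ∨ d' + 1 ≤ v.c + 1)) →
      (v.md = true → v.n * v.d + v.p + v.n = v.n * d' + p') →
      ∃ (j : ℕ) (γ : Multiset ℕ) (v' : Vd), β = j ::ₘ γ ∧ j ≤ v.c ∧
      Sn P o (u + 1) 0 (γ.map (· + 1)) v' ∧ v'.E + 1 = v.E ∧ v'.w = 0 ∧ v'.c = v.c + 1 ∧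
      v'.m + 1 = v.m ∧ v'.X = 0 ∧ v'.md = v.md ∧
      (v.md = true → v.n * v.d + v.p + v.n ≤ v'.n * v'.d + v'.p) ∧
      Psi P o 0 v + max (8 * (v.c : ℤ) + 52) (16 * (v.c : ℤ) - 8 * v.m + 60) ≤ Psi P o o v' ∧
      (v.md = true → Vee P o 0 v ≤ Vee P o o v') ∧
      Pee P o 0 v ≤ Pee P o o v' + 8 * (o : ℤ) + 16 * v.m + 8 := by
    intro j γ d' p' hβj hj hRp hA' hnd
    refine ⟨j, γ, { v with c := v.c + 1, m := v.m - 1, z := 0, d := d', p := p', E := v.E - 1 },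
      hβj, hj, ?_, ?_, hw, rfl, ?_, hX, rfl, ?_, ?_, ?_, ?_⟩
    · refine ⟨h.hf, h.hnl, ?_, Nat.zero_le _, h.hw, Nat.zero_le _, Or.inl rfl, hA', ?_, ?_, ?_,
        h.ho, ?_, ?_, hRp⟩
      · show v.m - 1 + 0 = v.E - 1 + v.w
        omega
      · intro hmd
        have := h.hH hmd
        show v.m - 1 ≤ P.f
        omega
      · have := h.hn
        show 3 * P.f + (v.c + 1) + (v.m - 1) + 4 * P.K + 100 ≤ 2 * v.n
        omega
      · have := h.hN
        show v.n + v.w + (v.E - 1) + o ≤ 4 * P.Q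
        omega
      · show P.W ≤ u + 1 + (v.E - 1)
        omega
      · rw [Multiset.card_map]
        rw [hβj, Multiset.card_cons] at hcard
        omega
    · show v.E - 1 + 1 = v.E
      omega
    · show v.m - 1 + 1 = v.m
      omega
    · intro hmd
      exact (hnd hmd).le
    · have h1 := T5_psi (f := (P.f : ℤ)) (m := v.m) (c := v.c) hmz (by positivity) hcz
      unfold Psi
      show pQ o v.E ((0 : ℕ) : ℤ) - pS P.f v.m v.c v.z v.X - pH P.f v.m v.c + _ ≤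
        pQ o ((v.E - 1 : ℕ) : ℤ) o - pS P.f ((v.m - 1 : ℕ) : ℤ) ((v.c + 1 : ℕ) : ℤ) ((0 : ℕ) : ℤ)
          v.X - pH P.f ((v.m - 1 : ℕ) : ℤ) ((v.c + 1 : ℕ) : ℤ)
      have h2 : pQ o v.E ((0 : ℕ) : ℤ) = pQ o ((v.E - 1 : ℕ) : ℤ) o := by
        unfold pQ
        rw [hEc]
        push_cast
        ring
      have h3 : pS P.f v.m v.c v.z v.X
          = pS P.f ((v.m - 1 : ℕ) : ℤ) ((v.c + 1 : ℕ) : ℤ) ((0 : ℕ) : ℤ) v.X := by
        unfold pS
        rw [hmc, hz]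
        push_cast
        have : (v.c : ℤ) + 1 + (v.m - 1) - P.f = v.c + v.m - P.f := by ring
        rw [this]
      rw [← h2, ← h3]
      have h4 : ((v.c + 1 : ℕ) : ℤ) = (v.c : ℤ) + 1 := by push_cast; ring
      rw [hmc, h4]
      linarith
    · intro hmd
      unfold Vee
      show pQ o v.E ((0 : ℕ) : ℤ) - pS P.f v.m v.c v.z v.X - pA P.f v.m v.n v.d v.p ≤
        pQ o ((v.E - 1 : ℕ) : ℤ) o - pS P.f ((v.m - 1 : ℕ) : ℤ) ((v.c + 1 : ℕ) : ℤ) ((0 : ℕ) : ℤ)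
          v.X - pA P.f ((v.m - 1 : ℕ) : ℤ) v.n d' p'
      have h2 : pQ o v.E ((0 : ℕ) : ℤ) = pQ o ((v.E - 1 : ℕ) : ℤ) o := by
        unfold pQ
        rw [hEc]
        push_cast
        ring
      have h3 : pS P.f v.m v.c v.z v.X
          = pS P.f ((v.m - 1 : ℕ) : ℤ) ((v.c + 1 : ℕ) : ℤ) ((0 : ℕ) : ℤ) v.X := by
        unfold pS
        rw [hmc, hz]
        push_cast
        have : (v.c : ℤ) + 1 + (v.m - 1) - P.f = v.c + v.m - P.f := by ring
        rw [this]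
      have h4 : pA P.f v.m v.n v.d v.p = pA P.f ((v.m - 1 : ℕ) : ℤ) v.n d' p' := by
        unfold pA
        rw [hmc]
        have h5 : (v.n : ℤ) * v.d + v.p + v.n = v.n * d' + p' := by exact_mod_cast hnd hmd
        linear_combination 8 * h5
      rw [← h2, ← h3, h4]
    · unfold Pee
      show pQ o v.E ((0 : ℕ) : ℤ) - pP P.f v.m v.c v.z v.X o ≤
        pQ o ((v.E - 1 : ℕ) : ℤ) o - pP P.f ((v.m - 1 : ℕ) : ℤ) ((v.c + 1 : ℕ) : ℤ) ((0 : ℕ) : ℤ)
          v.X o + 8 * (o : ℤ) + 16 * v.m + 8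
      have h2 : pQ o v.E ((0 : ℕ) : ℤ) = pQ o ((v.E - 1 : ℕ) : ℤ) o := by
        unfold pQ
        rw [hEc]
        push_cast
        ring
      have h1 := T5_pp (f := (P.f : ℤ)) (c := (v.c : ℤ)) (X := (v.X : ℤ)) hmz ho
      have h4 : ((v.c + 1 : ℕ) : ℤ) = (v.c : ℤ) + 1 := by push_cast; ring
      rw [← h2, hmc, h4, hz]
      push_cast
      linarith
  by_cases hmd : v.md = true
  · obtain ⟨g1, g2, g3, g4, g5⟩ := h.hA hmd
    rcases lt_or_ge v.d P.f with hdf | hdf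
    · obtain ⟨j, γ, hj, hjc, hR⟩ := rp_conv_A h.hR hmd hX hβ hm
      refine main j γ (v.d + 1) v.p hj hjc hR (fun _ => ⟨by omega, by omega, by omega, g4, ?_⟩)
        (fun _ => by ring)
      rcases g5 with g5 | g5
      · exact Or.inl g5
      · exact Or.inr (by omega)
    · have hp : v.p = 0 := by
        rcases hA hmd with h1 | h1
        · omega
        · exact h1
      obtain ⟨j, γ, hj, hjc, hR⟩ := rp_conv_C h.hR hmd hX hp hβ hm
      refine main j γ v.d v.n hj hjc hR (fun _ => ⟨by omega, by omega, by omega, le_rfl,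
        Or.inr (by omega)⟩) (fun _ => by rw [hp]; ring)
  · have hmd' : v.md = false := by simpa using hmd
    obtain ⟨j, γ, hj, hjc, hR⟩ := rp_conv_H h.hR hmd' hX hβ hm
    exact main j γ v.d v.p hj hjc hR (fun h => absurd h hmd) (fun h => absurd h hmd)

end Pool.Agent.OCN.YC
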